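import Pool.Agent.Helper68.Fam.Goals

/-!
# Project FAM (MP_18808e_co): packet MINC
-/

namespace NApexGraphs.Fam.Helper39

open SimpleGraph NApexGraphs NApexGraphs.Dom NApexGraphs.Fam

variable {V : Type} {G : SimpleGraph V} {κ : Type} {H : SimpleGraph κ} {A : κ → Set V}
  {x y : V} {w : κ}

/-- the model after the contraction -/
theorem contr_model (hxy : G.Adj x y) (hA : IsModel H G A) (hx : x ∈ A w) (hy : y ∈ A w) :
    IsModel H (addN G x y) (fun k => A k \ {x}) := by
  have hA' := (isModel_iff _ _ _).1 hA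
  obtain ⟨hc, hd, ha⟩ := hA'
  have hw : ∀ k, k ≠ w → x ∉ A k := fun k hk h =>
    Set.disjoint_left.1 (hd k w hk) h hx
  have hyx : y ≠ x := hxy.ne'
  rw [isModel_iff]
  refine ⟨?_, ?_, ?_⟩
  · intro k
    by_cases hk : k = w
    · subst hk
      refine ⟨⟨y, hy, hyx⟩, ?_⟩
      intro C hC hne hcl
      have h1 : A k ⊆ {z | z ∈ C ∨ (z = x ∧ y ∈ C)} := by
        apply (hc k).subset_of_closed
        · obtain ⟨z, hz⟩ := hne
          exact ⟨z, (hC hz).1, Or.inl hz⟩
        · intro a haA haC b hb hab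
          by_cases hbx : b = x
          · subst hbx
            rcases haC with h | ⟨h, h'⟩
            · by_cases hay : a = y
              · subst hay
                exact Or.inr ⟨rfl, h⟩
              · refine Or.inr ⟨rfl, hcl a h y ⟨hy, hyx⟩ ?_⟩
                exact Or.inr (Or.inr ⟨rfl, hay, hab.symm⟩)
            · exact Or.inr ⟨rfl, h'⟩
          · left
            rcases haC with h | ⟨h, h'⟩
            · exact hcl a h b ⟨hb, hbx⟩ (Or.inl hab)
            · subst h
              by_cases hby : b = y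
              · rw [hby]; exact h'
              · exact hcl y h' b ⟨hb, hbx⟩ (Or.inr (Or.inl ⟨rfl, hby, hab⟩))
      rintro z ⟨hz, hzx⟩
      rcases h1 hz with h | ⟨h, _⟩
      · exact h
      · exact absurd h hzx
    · have e1 : A k \ {x} = A k := by
        ext z
        constructor
        · exact fun h => h.1
        · intro h
          refine ⟨h, ?_⟩
          rintro rfl
          exact hw k hk h
      show Conn (addN G x y) (A k \ {x})
      rw [e1]
      exact (hc k).mono fun a _ b _ hab => Or.inl hab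
  · intro k l hkl
    exact (hd k l hkl).mono Set.sdiff_subset Set.sdiff_subset
  · intro k l hkl
    have hkl' : k ≠ l := hkl.ne
    obtain ⟨a, hak, b, hbl, hab⟩ := ha k l hkl
    by_cases hax : a = x
    · subst hax
      have hkw : k = w := by
        by_contra h
        exact hw k h hak
      subst hkw
      have hbx : b ≠ a := hab.ne'
      have hby : b ≠ y := by
        rintro rfl
        exact Set.disjoint_left.1 (hd k l hkl') hy hbl
      exact ⟨y, ⟨hy, hyx⟩, b, ⟨hbl, hbx⟩, Or.inr (Or.inl ⟨rfl, hby, hab⟩)⟩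
    · by_cases hbx : b = x
      · subst hbx
        have hlw : l = w := by
          by_contra h
          exact hw l h hbl
        subst hlw
        have hay : a ≠ y := by
          rintro rfl
          exact Set.disjoint_left.1 (hd k l hkl') hak hy
        exact ⟨a, ⟨hak, hax⟩, y, ⟨hy, hyx⟩, Or.inr (Or.inr ⟨rfl, hay, hab.symm⟩)⟩
      · exact ⟨a, ⟨hak, hax⟩, b, ⟨hbl, hbx⟩, Or.inl hab⟩

theorem contr [Finite κ] [DecidableEq V] {n : ℕ} (hxy : G.Adj x y) (hA : IsModel H G A)
    (hx : x ∈ A w) (hy : y ∈ A w) {X : Finset V} (hxX : x ∈ X) (hX : X.card ≤ n + 1)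
    (hP : Pl (addN G x y) ((X : Set V)ᶜ)) : NApex n H := by
  classical
  have := Fintype.ofFinite κ
  have hB := contr_model hxy hA hx hy
  let Y : Finset κ := Finset.univ.filter fun k => ∃ z ∈ X.erase x, z ∈ A k
  refine ⟨Y, ?_, ?_⟩
  · have h1 : Y.card ≤ (X.erase x).card :=
      card_meet_le (B := A) hA.2.1 (X.erase x) Y fun k hk => (Finset.mem_filter.1 hk).2
    rw [Finset.card_erase_of_mem hxX] at h1
    omega
  · refine Planar.of_isMinor ?_ ((pl_iff _ _).1 hP)
    rw [isMinor_induce_iff]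
    refine ⟨fun k => A k.1 \ {x}, ?_, ?_⟩
    · rw [isModel_iff] at hB ⊢
      exact ⟨fun k => hB.1 k.1, fun k l hkl => hB.2.1 _ _ fun h => hkl (Subtype.ext h),
        fun _ _ hkl => hB.2.2 _ _ hkl⟩
    · rintro k z ⟨hz, hzx⟩ hzX
      apply k.2
      have : ∃ z ∈ X.erase x, z ∈ A k.1 :=
        ⟨z, Finset.mem_erase.2 ⟨hzx, hzX⟩, hz⟩
      simpa [Y] using this

theorem gMINC : Goals.MINC := by
  classical
  intro V _ _ G n hnot hiso hdel hcon
  refine ⟨hnot, ?_⟩
  intro m H hm hne
  obtain ⟨x, y, hxy, hcase⟩ := proper_minor_cases hiso hm hne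
  rcases hcase with ⟨A, hA⟩ | ⟨A, hA, w, hx, hy⟩
  · obtain ⟨X, hX, hP⟩ := hdel x y hxy
    exact NApex.of_isMinor ⟨A, hA⟩ ⟨X, hX, (pl_iff _ _).1 hP⟩
  · rcases hcon x y hxy with ⟨X, hxX, hX, hP⟩ | ⟨X, hyX, hX, hP⟩
    · exact contr hxy hA hx hy hxX hX hP
    · exact contr hxy.symm hA hy hx hyX hX hP

end NApexGraphs.Fam.Helper39
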